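import Mathlib
import Pool.Agent.Q258.FourthPow

set_option autoImplicit false

/-!
# Dense sets with no product of two elements a fourth power

For `(k, d) = (2, 4)` the deficiency `n - F_{2,4} (n)` is not of order `n ^ (2 / 4)`: it is
`≥ K √n` for every `K` and all large `n`.  The proof exhibits many disjoint pairs
`{x y³ z², x³ y z²}` (`y` prime, `x < y` squarefree, `y ∤ z`) whose products are fourth powers.
-/

namespace Pool.Agent.Results.MP_5e019f_nt.FailsForSquaresOfFour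

open Finset Filter

/-- No product of `k` pairwise distinct elements of `A` is a perfect `d`-th power. -/
def AdmDistinct (k d : ℕ) (A : Finset ℕ) : Prop :=
  ∀ S : Finset ℕ, S ⊆ A → S.card = k → ∀ x : ℕ, 0 < x → ∏ a ∈ S, a ≠ x ^ d

/-- No product of `k` elements of `A`, repetitions allowed, is a perfect `d`-th power. -/
def AdmRepeated (k d : ℕ) (A : Finset ℕ) : Prop :=
  ∀ a : Fin k → ℕ, (∀ i, a i ∈ A) → ∀ x : ℕ, 0 < x → ∏ i, a i ≠ x ^ d

open Classical in
/-- `F k d n`: largest size of a set `A ⊆ {1, …, n}` such that no product of `k` pairwise distinct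
elements of `A` is a perfect `d`-th power. -/
noncomputable def F (k d n : ℕ) : ℕ :=
  ((Icc 1 n).powerset.filter (fun A => AdmDistinct k d A)).sup Finset.card

open Classical in
/-- `f k d n`: the same with repetitions allowed. -/
noncomputable def f (k d n : ℕ) : ℕ :=
  ((Icc 1 n).powerset.filter (fun A => AdmRepeated k d A)).sup Finset.card

/-- The conjectured order of magnitude. -/
def Conjecture : Prop :=
  ∀ k d : ℕ, 1 < k → k < d → 4 ≤ d → ∃ c C : ℝ, 0 < c ∧ c ≤ C ∧ ∀ᶠ n : ℕ in atTop,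
    c * (n : ℝ) ^ ((k : ℝ) / (d : ℝ)) ≤ (n : ℝ) - (F k d n : ℝ) ∧
    (n : ℝ) - (F k d n : ℝ) ≤ (n : ℝ) - (f k d n : ℝ) ∧
    (n : ℝ) - (f k d n : ℝ) ≤ C * (n : ℝ) ^ ((k : ℝ) / (d : ℝ))

theorem f_le_F (k d n : ℕ) : f k d n ≤ F k d n := by
  classical
  unfold f F
  apply Finset.sup_mono
  intro A hA
  rw [mem_filter] at hA ⊢
  refine ⟨hA.1, ?_⟩
  intro S hS hk x hx h
  refine hA.2 (fun i => (S.orderEmbOfFin hk i : ℕ)) (fun i => hS (orderEmbOfFin_mem S hk i)) x hx ?_
  rw [← h]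
  have h1 : (univ : Finset (Fin k)).map (S.orderEmbOfFin hk).toEmbedding = S :=
    map_orderEmbOfFin_univ S hk
  conv_rhs => rw [← h1]
  rw [prod_map]
  rfl

theorem F_bound (K : ℝ) : ∃ n0 : ℕ, ∀ n : ℕ, n0 ≤ n → K * Real.sqrt n ≤ (n : ℝ) - (F 2 4 n : ℝ) := by
  classical
  obtain ⟨n0, h0⟩ := Pool.Agent.Q258.FourthPow.deficiency K
  refine ⟨max n0 1, fun n hn => ?_⟩
  obtain ⟨m, h1, h2, h3⟩ := h0 n (le_trans (le_max_left _ _) hn)
  have h4 : F 2 4 n ≤ n - m := by
    unfold F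
    apply Finset.sup_le
    intro A hA
    rw [mem_filter, mem_powerset] at hA
    have h5 : A.card + m ≤ n := by
      apply h3 A hA.1
      intro a ha b hb hab x h
      have ha1 := (mem_Icc.1 (hA.1 ha)).1
      have hb1 := (mem_Icc.1 (hA.1 hb)).1
      have hx : 0 < x := by
        rcases Nat.eq_zero_or_pos x with rfl | h6
        · have : 0 < a * b := Nat.mul_pos ha1 hb1
          rw [h] at this
          norm_num at this
        · exact h6
      refine hA.2 {a, b} ?_ (card_pair hab) x hx (by rw [prod_pair hab]; exact h)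
      intro y hy
      rw [mem_insert, mem_singleton] at hy
      rcases hy with rfl | rfl
      · exact ha
      · exact hb
    omega
  have h6 : (F 2 4 n : ℝ) ≤ (n : ℝ) - m := by
    have : ((F 2 4 n : ℕ) : ℝ) ≤ ((n - m : ℕ) : ℝ) := by exact_mod_cast h4
    rwa [Nat.cast_sub h2] at this
  linarith

theorem tendsto_F : Tendsto (fun n : ℕ => ((n : ℝ) - (F 2 4 n : ℝ)) / (n : ℝ) ^ ((2 : ℝ) / 4))
    atTop atTop := by
  rw [tendsto_atTop]
  intro K
  obtain ⟨n0, h0⟩ := F_bound K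
  filter_upwards [eventually_ge_atTop (max n0 1)] with n hn
  have h1 := h0 n (le_trans (le_max_left _ _) hn)
  have hn1 : 1 ≤ n := le_trans (le_max_right _ _) hn
  have h2 : (n : ℝ) ^ ((2 : ℝ) / 4) = Real.sqrt n := by
    rw [Real.sqrt_eq_rpow]; norm_num
  have h3 : 0 < Real.sqrt n := Real.sqrt_pos.2 (by exact_mod_cast hn1)
  rw [h2, le_div_iff₀ h3]
  exact h1

/-- `(n - F_{2,4} (n)) / n ^ (2/4)` tends to infinity, hence so does
`(n - f_{2,4} (n)) / n ^ (2/4)`, and the conjecture fails for `(k, d) = (2, 4)`. -/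
theorem result :
    Tendsto (fun n : ℕ => ((n : ℝ) - (F 2 4 n : ℝ)) / (n : ℝ) ^ ((2 : ℝ) / 4)) atTop atTop ∧
    Tendsto (fun n : ℕ => ((n : ℝ) - (f 2 4 n : ℝ)) / (n : ℝ) ^ ((2 : ℝ) / 4)) atTop atTop ∧
    ¬ Conjecture := by
  have hf : Tendsto (fun n : ℕ => ((n : ℝ) - (f 2 4 n : ℝ)) / (n : ℝ) ^ ((2 : ℝ) / 4))
      atTop atTop := by
    apply tendsto_atTop_mono _ tendsto_F
    intro n
    have h : ((f 2 4 n : ℕ) : ℝ) ≤ ((F 2 4 n : ℕ) : ℝ) := by exact_mod_cast f_le_F 2 4 n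
    apply div_le_div_of_nonneg_right (by linarith)
    positivity
  refine ⟨tendsto_F, hf, ?_⟩
  intro hC
  obtain ⟨c, C, hc, hcC, h⟩ := hC 2 4 (by norm_num) (by norm_num) le_rfl
  have h1 := hf.eventually (eventually_gt_atTop C)
  obtain ⟨n, h2, h3, h4⟩ := (h.and (h1.and (eventually_ge_atTop 1))).exists
  have h5 := h2.2.2
  have hn : (0 : ℝ) < n := by exact_mod_cast h4
  have h6 : (0 : ℝ) < (n : ℝ) ^ ((2 : ℝ) / 4) := Real.rpow_pos_of_pos hn _
  rw [lt_div_iff₀ h6] at h3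
  push_cast at h5
  linarith

end Pool.Agent.Results.MP_5e019f_nt.FailsForSquaresOfFour
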